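import Pool.Agent.H754R3.Rains

/-!
# Local positivity of the Rains function does not imply global nonnegativity

Gauge group `SU(2)`, two copies of `Sym³ ℂ²` with R-charge `3/2` and four copies of the adjoint
representation with R-charge `1/8`: `L_h(x) = |x|` for `|x| ≤ 1/3` and `L_h(1/2) = -1/2`.
-/

namespace Pool.Agent.Results.MP_4046ef_mp.LocalNotGlobal

open Pool.Agent.H754R3.Rains

/-- There is a non-chiral datum with gauge group `SU(2)`, without gauge singlets, whose Rains
function is strictly positive on a punctured neighbourhood of the origin but negative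
somewhere. -/
theorem result :
    ∃ D : Datum, D.NonChiral ∧ D.NoSinglets ∧
      (∃ ε : ℝ, 0 < ε ∧ ∀ x : ℝ, 0 < |x| → |x| < ε → 0 < D.rains x) ∧
      ∃ x : ℝ, D.rains x < 0 :=
  ⟨datum, nonChiral_datum, noSinglets_datum,
    ⟨1 / 3, by norm_num, fun _ h0 h1 => rains_small h0 h1⟩,
    1 / 2, by rw [rains_half]; norm_num⟩

end Pool.Agent.Results.MP_4046ef_mp.LocalNotGlobal
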